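import Mathlib

/-!
Equal degree is first-order definable, without parameters, in the ring `K[t]`
for every algebraically closed field `K` of characteristic zero, by one formula
of the language of rings that works for all such `K`.
-/

namespace Pool.Agent.Results.MP_d395f7_lc.EqualDegreeDefinable

open Polynomial FirstOrder FirstOrder.Language FirstOrder.Ring

universe u

section Formulas

/-- `D P`: the relation `P` on rings is expressed by one formula. -/
def D {α : Type} (P : ∀ (M : Type u) [CommRing M], (α → M) → Prop) : Prop :=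
  ∃ φ : Language.ring.Formula α, ∀ (M : Type u) [CommRing M] [CompatibleRing M] (v : α → M),
    φ.Realize v ↔ P M v

variable {α : Type}

theorem D.and {P Q : ∀ (M : Type u) [CommRing M], (α → M) → Prop} (hP : D P) (hQ : D Q) :
    D (fun M _ v => P M v ∧ Q M v) := by
  obtain ⟨φ, hφ⟩ := hP
  obtain ⟨ψ, hψ⟩ := hQ
  refine ⟨φ ⊓ ψ, fun M _ _ v => ?_⟩
  rw [Formula.realize_inf, hφ, hψ]

theorem D.or {P Q : ∀ (M : Type u) [CommRing M], (α → M) → Prop} (hP : D P) (hQ : D Q) :
    D (fun M _ v => P M v ∨ Q M v) := by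
  obtain ⟨φ, hφ⟩ := hP
  obtain ⟨ψ, hψ⟩ := hQ
  refine ⟨φ ⊔ ψ, fun M _ _ v => ?_⟩
  rw [Formula.realize_sup, hφ, hψ]

theorem D.not {P : ∀ (M : Type u) [CommRing M], (α → M) → Prop} (hP : D P) :
    D (fun M _ v => ¬ P M v) := by
  obtain ⟨φ, hφ⟩ := hP
  refine ⟨φ.not, fun M _ _ v => ?_⟩
  rw [Formula.realize_not, hφ]

theorem D.imp {P Q : ∀ (M : Type u) [CommRing M], (α → M) → Prop} (hP : D P) (hQ : D Q) :
    D (fun M _ v => P M v → Q M v) := by
  obtain ⟨φ, hφ⟩ := hP
  obtain ⟨ψ, hψ⟩ := hQ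
  refine ⟨φ.imp ψ, fun M _ _ v => ?_⟩
  rw [Formula.realize_imp, hφ, hψ]

theorem D.ex {P : ∀ (M : Type u) [CommRing M], (α → M) → M → Prop}
    (h : D (α := α ⊕ Unit) (fun M _ w => P M (fun a => w (Sum.inl a)) (w (Sum.inr ())))) :
    D (fun M _ v => ∃ x : M, P M v x) := by
  obtain ⟨φ, hφ⟩ := h
  refine ⟨φ.iExs Unit, fun M _ _ v => ?_⟩
  rw [Formula.realize_iExs]
  constructor
  · rintro ⟨i, hi⟩
    rw [hφ] at hi
    exact ⟨i (), hi⟩
  · rintro ⟨x, hx⟩
    refine ⟨fun _ => x, ?_⟩
    rw [hφ]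
    exact hx

theorem D.all {P : ∀ (M : Type u) [CommRing M], (α → M) → M → Prop}
    (h : D (α := α ⊕ Unit) (fun M _ w => P M (fun a => w (Sum.inl a)) (w (Sum.inr ())))) :
    D (fun M _ v => ∀ x : M, P M v x) := by
  obtain ⟨φ, hφ⟩ := h
  refine ⟨φ.iAlls Unit, fun M _ _ v => ?_⟩
  rw [Formula.realize_iAlls]
  constructor
  · intro h x
    have := h (fun _ => x)
    rw [hφ] at this
    exact this
  · intro h i
    rw [hφ]
    exact h (i ())

theorem D.eqZero (a : α) : D.{u} (fun _ _ v => v a = 0) :=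
  ⟨(Term.var a).equal 0, fun M _ _ v => by simp⟩

theorem D.mulEqOne (a b : α) : D.{u} (fun _ _ v => v a * v b = 1) :=
  ⟨Term.equal (Term.var a * Term.var b : Language.ring.Term α) 1, fun M _ _ v => by simp⟩

theorem D.eqMul (a b c : α) : D.{u} (fun _ _ v => v a = v b * v c) :=
  ⟨(Term.var a).equal (Term.var b * Term.var c), fun M _ _ v => by simp⟩

theorem D.eqAdd (a b c : α) : D.{u} (fun _ _ v => v a = v b + v c) :=
  ⟨(Term.var a).equal (Term.var b + Term.var c), fun M _ _ v => by simp⟩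

theorem D.eqAddMul (a b c d : α) : D.{u} (fun _ _ v => v a = v b + v c * v d) :=
  ⟨(Term.var a).equal (Term.var b + Term.var c * Term.var d), fun M _ _ v => by simp⟩

end Formulas

section Relations

variable {M : Type u} [CommRing M]

/-- `a` is a unit. -/
def Un (a : M) : Prop := ∃ b : M, a * b = 1

/-- `a` is zero or a unit (a constant, in a polynomial ring over a field). -/
def Con (a : M) : Prop := a = 0 ∨ Un a

/-- `a` divides `b`. -/
def Dv (a b : M) : Prop := ∃ c : M, b = a * c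

/-- `p` is irreducible. -/
def Irr (p : M) : Prop := ¬ Un p ∧ ∀ x y : M, p = x * y → Un x ∨ Un y

/-- `b` is a constant congruent to `f` modulo `p`. -/
def Val (p f b : M) : Prop := Con b ∧ ∃ w : M, f = b + p * w

/-- The values of `f` at different roots of `r` are different. -/
def Inj (r f : M) : Prop :=
  ∀ p q b : M, Irr p → Irr q → Dv p r → Dv q r → Val p f b → Val q f b → Dv p q

/-- Every value of `f` at a root of `r` is a value of `h` at a root of `s`. -/
def Img (r f s h : M) : Prop :=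
  ∀ p b : M, Irr p → Dv p r → Val p f b → ∃ q : M, Irr q ∧ Dv q s ∧ Val q h b

/-- `r` has at most as many roots as `s`. -/
def Le (r s : M) : Prop := ∃ f h : M, Inj r f ∧ Img r f s h

/-- For nonconstant polynomials: the degree of `f` is at most the degree of `g`. -/
def LeDeg (f g : M) : Prop :=
  ∀ c r : M, Con c → f = r + c → ∃ d s : M, Con d ∧ g = s + d ∧ Le r s

/-- Equal degree. -/
def EqDeg (f g : M) : Prop :=
  (f = 0 ∧ g = 0) ∨ (Un f ∧ Un g) ∨ (¬ Con f ∧ ¬ Con g ∧ LeDeg f g ∧ LeDeg g f)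

end Relations

section Definable

variable {α : Type}

theorem dUn (a : α) : D.{u} (fun _ _ v => Un (v a)) :=
  D.ex (P := fun _ _ v b => v a * b = 1) (D.mulEqOne _ _)

theorem dCon (a : α) : D.{u} (fun _ _ v => Con (v a)) :=
  D.or (D.eqZero a) (dUn a)

theorem dDv (a b : α) : D.{u} (fun _ _ v => Dv (v a) (v b)) :=
  D.ex (P := fun _ _ v c => v b = v a * c) (D.eqMul _ _ _)

theorem dIrr (p : α) : D.{u} (fun _ _ v => Irr (v p)) :=
  D.and (D.not (dUn p))
    (D.all (P := fun M _ v x => ∀ y : M, v p = x * y → Un x ∨ Un y)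
      (D.all (P := fun _ _ v y => v (Sum.inl p) = v (Sum.inr ()) * y → Un (v (Sum.inr ())) ∨ Un y)
        (D.imp (D.eqMul _ _ _) (D.or (dUn _) (dUn _)))))

theorem dVal (p f b : α) : D.{u} (fun _ _ v => Val (v p) (v f) (v b)) :=
  D.and (dCon b) (D.ex (P := fun _ _ v w => v f = v b + v p * w) (D.eqAddMul _ _ _ _))

theorem dInj (r f : α) : D.{u} (fun _ _ v => Inj (v r) (v f)) := by
  refine D.all (P := fun M _ v p => ∀ q b : M, Irr p → Irr q → Dv p (v r) → Dv q (v r) →
    Val p (v f) b → Val q (v f) b → Dv p q) ?_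
  refine D.all (P := fun M _ v q => ∀ b : M, Irr (v (Sum.inr ())) → Irr q →
    Dv (v (Sum.inr ())) (v (Sum.inl r)) → Dv q (v (Sum.inl r)) →
    Val (v (Sum.inr ())) (v (Sum.inl f)) b → Val q (v (Sum.inl f)) b → Dv (v (Sum.inr ())) q) ?_
  refine D.all (P := fun M _ v b => Irr (v (Sum.inl (Sum.inr ()))) → Irr (v (Sum.inr ())) →
    Dv (v (Sum.inl (Sum.inr ()))) (v (Sum.inl (Sum.inl r))) →
    Dv (v (Sum.inr ())) (v (Sum.inl (Sum.inl r))) →
    Val (v (Sum.inl (Sum.inr ()))) (v (Sum.inl (Sum.inl f))) b →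
    Val (v (Sum.inr ())) (v (Sum.inl (Sum.inl f))) b →
    Dv (v (Sum.inl (Sum.inr ()))) (v (Sum.inr ()))) ?_
  exact D.imp (dIrr _) (D.imp (dIrr _) (D.imp (dDv _ _) (D.imp (dDv _ _)
    (D.imp (dVal _ _ _) (D.imp (dVal _ _ _) (dDv _ _))))))

theorem dImg (r f s h : α) : D.{u} (fun _ _ v => Img (v r) (v f) (v s) (v h)) := by
  refine D.all (P := fun M _ v p => ∀ b : M, Irr p → Dv p (v r) → Val p (v f) b →
    ∃ q : M, Irr q ∧ Dv q (v s) ∧ Val q (v h) b) ?_
  refine D.all (P := fun M _ v b => Irr (v (Sum.inr ())) → Dv (v (Sum.inr ())) (v (Sum.inl r)) →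
    Val (v (Sum.inr ())) (v (Sum.inl f)) b →
    ∃ q : M, Irr q ∧ Dv q (v (Sum.inl s)) ∧ Val q (v (Sum.inl h)) b) ?_
  refine D.imp (dIrr _) (D.imp (dDv _ _) (D.imp (dVal _ _ _) ?_))
  refine D.ex (P := fun M _ v q => Irr q ∧ Dv q (v (Sum.inl (Sum.inl s))) ∧
    Val q (v (Sum.inl (Sum.inl h))) (v (Sum.inr ()))) ?_
  exact D.and (dIrr _) (D.and (dDv _ _) (dVal _ _ _))

theorem dLe (r s : α) : D.{u} (fun _ _ v => Le (v r) (v s)) := by
  refine D.ex (P := fun M _ v f => ∃ h : M, Inj (v r) f ∧ Img (v r) f (v s) h) ?_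
  refine D.ex (P := fun M _ v h => Inj (v (Sum.inl r)) (v (Sum.inr ())) ∧
    Img (v (Sum.inl r)) (v (Sum.inr ())) (v (Sum.inl s)) h) ?_
  exact D.and (dInj _ _) (dImg _ _ _ _)

theorem dLeDeg (f g : α) : D.{u} (fun _ _ v => LeDeg (v f) (v g)) := by
  refine D.all (P := fun M _ v c => ∀ r : M, Con c → v f = r + c →
    ∃ d s : M, Con d ∧ v g = s + d ∧ Le r s) ?_
  refine D.all (P := fun M _ v r => Con (v (Sum.inr ())) → v (Sum.inl f) = r + v (Sum.inr ()) →
    ∃ d s : M, Con d ∧ v (Sum.inl g) = s + d ∧ Le r s) ?_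
  refine D.imp (dCon _) (D.imp (D.eqAdd _ _ _) ?_)
  refine D.ex (P := fun M _ v d => ∃ s : M, Con d ∧ v (Sum.inl (Sum.inl g)) = s + d ∧
    Le (v (Sum.inr ())) s) ?_
  refine D.ex (P := fun M _ v s => Con (v (Sum.inr ())) ∧
    v (Sum.inl (Sum.inl (Sum.inl g))) = s + v (Sum.inr ()) ∧
    Le (v (Sum.inl (Sum.inr ()))) s) ?_
  exact D.and (dCon _) (D.and (D.eqAdd _ _ _) (dLe _ _))

theorem dEqDeg (f g : α) : D.{u} (fun _ _ v => EqDeg (v f) (v g)) :=
  D.or (D.and (D.eqZero _) (D.eqZero _)) (D.or (D.and (dUn _) (dUn _))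
    (D.and (D.not (dCon _)) (D.and (D.not (dCon _)) (D.and (dLeDeg _ _) (dLeDeg _ _)))))

end Definable

section Polys

variable {K : Type u} [Field K]

theorem un_iff (a : K[X]) : Un a ↔ IsUnit a := by
  rw [isUnit_iff_exists_inv, Un]

theorem dv_iff (a b : K[X]) : Dv a b ↔ a ∣ b := Iff.rfl

theorem irr_iff (p : K[X]) : Irr p ↔ Irreducible p := by
  rw [irreducible_iff]
  unfold Irr
  simp only [un_iff]

theorem con_iff (a : K[X]) : Con a ↔ ∃ c : K, a = C c := by
  unfold Con
  rw [un_iff, Polynomial.isUnit_iff]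
  constructor
  · rintro (h | ⟨r, _, h⟩)
    · exact ⟨0, by rw [h, C_0]⟩
    · exact ⟨r, h.symm⟩
  · rintro ⟨c, rfl⟩
    by_cases hc : c = 0
    · left
      rw [hc, C_0]
    · right
      exact ⟨c, isUnit_iff_ne_zero.2 hc, rfl⟩

theorem irr_lin (z : K) : Irr (X - C z) := by
  rw [irr_iff]
  exact irreducible_X_sub_C z

theorem dv_lin (z : K) (r : K[X]) : Dv (X - C z) r ↔ r.IsRoot z := by
  rw [dv_iff, dvd_iff_isRoot]

theorem val_lin (z : K) (f b : K[X]) : Val (X - C z) f b ↔ b = C (f.eval z) := by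
  unfold Val
  rw [con_iff]
  constructor
  · rintro ⟨⟨c, rfl⟩, w, hw⟩
    have : f.eval z = c := by
      rw [hw]
      simp
    rw [this]
  · rintro rfl
    refine ⟨⟨_, rfl⟩, ?_⟩
    have h : (X - C z) ∣ f - C (f.eval z) := by
      rw [dvd_iff_isRoot]
      simp [IsRoot]
    obtain ⟨w, hw⟩ := h
    exact ⟨w, by rw [← hw]; ring⟩

theorem irr_cases [IsAlgClosed K] {p : K[X]} (hp : Irr p) :
    ∃ z : K, (∀ r : K[X], Dv p r ↔ r.IsRoot z) ∧
      (∀ f b : K[X], Val p f b ↔ b = C (f.eval z)) := by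
  rw [irr_iff] at hp
  obtain ⟨z, hz⟩ := exists_root_of_degree_eq_one (IsAlgClosed.degree_eq_one_of_irreducible K hp)
  have h1 : (X - C z) ∣ p := dvd_iff_isRoot.2 hz
  have h2 : Associated (X - C z) p := (irreducible_X_sub_C z).associated_of_dvd hp h1
  refine ⟨z, fun r => ?_, fun f b => ?_⟩
  · rw [← dv_lin, dv_iff, dv_iff, h2.dvd_iff_dvd_left]
  · rw [← val_lin]
    have h3 : ∀ q : K[X], (∃ w, f = b + q * w) ↔ q ∣ f - b := by
      intro q
      constructor
      · rintro ⟨w, hw⟩
        exact ⟨w, by rw [hw]; ring⟩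
      · rintro ⟨w, hw⟩
        exact ⟨w, by rw [← hw]; ring⟩
    unfold Val
    rw [h3, h3, h2.dvd_iff_dvd_left]

theorem inj_iff [IsAlgClosed K] (r f : K[X]) :
    Inj r f ↔ ∀ z y : K, r.IsRoot z → r.IsRoot y → f.eval z = f.eval y → z = y := by
  constructor
  · intro h z y hz hy e
    have := h (X - C z) (X - C y) (C (f.eval z)) (irr_lin z) (irr_lin y) ((dv_lin z r).2 hz)
      ((dv_lin y r).2 hy) ((val_lin _ _ _).2 rfl) ((val_lin _ _ _).2 (by rw [e]))
    rw [dv_lin] at this
    have h2 : z - y = 0 := by simpa [IsRoot] using this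
    exact sub_eq_zero.1 h2
  · intro h p q b hp hq hpr hqr hpb hqb
    obtain ⟨z, h1, h2⟩ := irr_cases hp
    obtain ⟨y, h3, h4⟩ := irr_cases hq
    rw [h2] at hpb
    rw [h4, hpb] at hqb
    have hzy : z = y := h z y ((h1 r).1 hpr) ((h3 r).1 hqr) (C_injective hqb)
    exact (h1 q).2 (hzy ▸ (h3 q).1 ((dv_iff _ _).2 dvd_rfl))

theorem img_iff [IsAlgClosed K] (r f s h : K[X]) :
    Img r f s h ↔ ∀ z : K, r.IsRoot z → ∃ y : K, s.IsRoot y ∧ h.eval y = f.eval z := by
  constructor
  · intro H z hz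
    obtain ⟨q, hq, hqs, hqb⟩ := H (X - C z) (C (f.eval z)) (irr_lin z) ((dv_lin z r).2 hz)
      ((val_lin _ _ _).2 rfl)
    obtain ⟨y, h3, h4⟩ := irr_cases hq
    rw [h4] at hqb
    exact ⟨y, (h3 s).1 hqs, (C_injective hqb).symm⟩
  · intro H p b hp hpr hpb
    obtain ⟨z, h1, h2⟩ := irr_cases hp
    rw [h2] at hpb
    obtain ⟨y, hy, e⟩ := H z ((h1 r).1 hpr)
    exact ⟨X - C y, irr_lin y, (dv_lin y s).2 hy, (val_lin _ _ _).2 (by rw [hpb, e])⟩

open Classical in
theorem le_iff [IsAlgClosed K] {r s : K[X]} (hr : r ≠ 0) (hs : s ≠ 0) :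
    Le r s ↔ r.roots.toFinset.card ≤ s.roots.toFinset.card := by
  constructor
  · rintro ⟨f, h, h1, h2⟩
    rw [inj_iff] at h1
    rw [img_iff] at h2
    have e1 : (r.roots.toFinset.image (fun z => f.eval z)).card = r.roots.toFinset.card := by
      apply Finset.card_image_of_injOn
      intro z hz y hy e
      have hz' : r.IsRoot z := by simpa [hr] using hz
      have hy' : r.IsRoot y := by simpa [hr] using hy
      exact h1 z y hz' hy' e
    have e2 : r.roots.toFinset.image (fun z => f.eval z) ⊆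
        s.roots.toFinset.image (fun z => h.eval z) := by
      intro w hw
      rw [Finset.mem_image] at hw
      obtain ⟨z, hz, rfl⟩ := hw
      have hz' : r.IsRoot z := by simpa [hr] using hz
      obtain ⟨y, hy, e⟩ := h2 z hz'
      rw [Finset.mem_image]
      exact ⟨y, by simpa [hs] using hy, e⟩
    calc r.roots.toFinset.card = (r.roots.toFinset.image (fun z => f.eval z)).card := e1.symm
      _ ≤ (s.roots.toFinset.image (fun z => h.eval z)).card := Finset.card_le_card e2
      _ ≤ s.roots.toFinset.card := Finset.card_image_le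
  · intro hle
    obtain ⟨g, hg1, hg2⟩ : ∃ g : K → K, (∀ z ∈ r.roots.toFinset, g z ∈ s.roots.toFinset) ∧
        Set.InjOn g (r.roots.toFinset : Set K) := by
      obtain ⟨e⟩ : Nonempty (r.roots.toFinset ↪ s.roots.toFinset) := by
        rw [Function.Embedding.nonempty_iff_card_le]
        simpa using hle
      refine ⟨fun z => if hz : z ∈ r.roots.toFinset then (e ⟨z, hz⟩ : K) else 0, ?_, ?_⟩
      · intro z hz
        simp only [hz, dif_pos]
        exact (e ⟨z, hz⟩).2
      · intro z hz y hy hzy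
        have hz' : z ∈ r.roots.toFinset := hz
        have hy' : y ∈ r.roots.toFinset := hy
        simp only [hz', hy', dif_pos] at hzy
        have := e.injective (Subtype.ext hzy)
        exact congrArg Subtype.val this
    have hev : ∀ z ∈ r.roots.toFinset,
        (Lagrange.interpolate r.roots.toFinset id g).eval z = g z := fun z hz =>
      Lagrange.eval_interpolate_at_node (v := id) g (Function.injective_id.injOn) hz
    refine ⟨Lagrange.interpolate r.roots.toFinset id g, X, ?_, ?_⟩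
    · rw [inj_iff]
      intro z y hz hy e
      have hz' : z ∈ r.roots.toFinset := by simpa [hr] using hz
      have hy' : y ∈ r.roots.toFinset := by simpa [hr] using hy
      rw [hev z hz', hev y hy'] at e
      exact hg2 hz' hy' e
    · rw [img_iff]
      intro z hz
      have hz' : z ∈ r.roots.toFinset := by simpa [hr] using hz
      refine ⟨g z, by simpa [hs] using hg1 z hz', ?_⟩
      rw [hev z hz', eval_X]

open Classical in
theorem card_le (f : K[X]) : f.roots.toFinset.card ≤ f.natDegree :=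
  (Multiset.toFinset_card_le _).trans (card_roots' f)

theorem sub_C_ne_zero {f : K[X]} (hf : f.natDegree ≠ 0) (c : K) : f - C c ≠ 0 := by
  intro h
  apply hf
  rw [sub_eq_zero] at h
  rw [h, natDegree_C]

open Classical in
theorem exists_good [IsAlgClosed K] [CharZero K] {f : K[X]} (hf : f.natDegree ≠ 0) :
    ∃ c : K, (f - C c).roots.toFinset.card = f.natDegree := by
  have hd : derivative f ≠ 0 := by
    intro h
    exact hf (Polynomial.derivative_eq_zero.1 h)
  obtain ⟨c, hc⟩ := Infinite.exists_notMem_finset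
    ((derivative f).roots.toFinset.image (fun z => f.eval z))
  refine ⟨c, ?_⟩
  have hne := sub_C_ne_zero hf c
  have hnd : (f - C c).roots.Nodup := by
    rw [Multiset.nodup_iff_count_le_one]
    intro z
    rw [count_roots]
    by_contra hlt
    push Not at hlt
    have h := (one_lt_rootMultiplicity_iff_isRoot hne).1 hlt
    apply hc
    rw [Finset.mem_image]
    refine ⟨z, ?_, ?_⟩
    · have := h.2
      simp only [derivative_sub, derivative_C, sub_zero] at this
      simpa [hd] using this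
    · have := h.1
      simp only [IsRoot, eval_sub, eval_C] at this
      exact sub_eq_zero.1 this
  rw [Multiset.toFinset_card_of_nodup hnd, IsAlgClosed.card_roots_eq_natDegree,
    natDegree_sub_C]

open Classical in
theorem leDeg_iff [IsAlgClosed K] [CharZero K] {f g : K[X]} (hf : f.natDegree ≠ 0)
    (hg : g.natDegree ≠ 0) : LeDeg f g ↔ f.natDegree ≤ g.natDegree := by
  constructor
  · intro h
    obtain ⟨c, hc⟩ := exists_good hf
    obtain ⟨d, s, hd, hs, hle⟩ := h (C c) (f - C c) ((con_iff _).2 ⟨c, rfl⟩) (by ring)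
    obtain ⟨e, rfl⟩ := (con_iff _).1 hd
    have hs' : s = g - C e := by rw [hs]; ring
    rw [hs'] at hle
    rw [le_iff (sub_C_ne_zero hf c) (sub_C_ne_zero hg e), hc] at hle
    calc f.natDegree ≤ (g - C e).roots.toFinset.card := hle
      _ ≤ (g - C e).natDegree := card_le _
      _ = g.natDegree := natDegree_sub_C
  · intro hle c r hc hr
    obtain ⟨c, rfl⟩ := (con_iff _).1 hc
    obtain ⟨d, hd⟩ := exists_good hg
    refine ⟨C d, g - C d, (con_iff _).2 ⟨d, rfl⟩, by ring, ?_⟩
    have hr' : r = f - C c := by rw [hr]; ring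
    rw [hr', le_iff (sub_C_ne_zero hf c) (sub_C_ne_zero hg d), hd]
    calc (f - C c).roots.toFinset.card ≤ (f - C c).natDegree := card_le _
      _ = f.natDegree := natDegree_sub_C
      _ ≤ g.natDegree := hle

theorem con_iff_natDegree (f : K[X]) : Con f ↔ f.natDegree = 0 := by
  rw [con_iff, natDegree_eq_zero]
  constructor
  · rintro ⟨c, h⟩
    exact ⟨c, h.symm⟩
  · rintro ⟨c, h⟩
    exact ⟨c, h.symm⟩

theorem eqDeg_iff [IsAlgClosed K] [CharZero K] (f g : K[X]) :
    EqDeg f g ↔ f.degree = g.degree := by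
  unfold EqDeg
  rw [un_iff, un_iff, con_iff_natDegree, con_iff_natDegree, isUnit_iff_degree_eq_zero,
    isUnit_iff_degree_eq_zero]
  constructor
  · rintro (⟨rfl, rfl⟩ | ⟨h1, h2⟩ | ⟨h1, h2, h3, h4⟩)
    · rfl
    · rw [h1, h2]
    · rw [leDeg_iff h1 h2] at h3
      rw [leDeg_iff h2 h1] at h4
      have hf : f ≠ 0 := by
        rintro rfl
        exact h1 natDegree_zero
      have hg : g ≠ 0 := by
        rintro rfl
        exact h2 natDegree_zero
      rw [degree_eq_natDegree hf, degree_eq_natDegree hg, le_antisymm h3 h4]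
  · intro h
    by_cases hf : f = 0
    · left
      refine ⟨hf, ?_⟩
      rw [hf, degree_zero] at h
      exact degree_eq_bot.1 h.symm
    · by_cases hf1 : f.degree = 0
      · right; left
        exact ⟨hf1, by rw [← h, hf1]⟩
      · right; right
        have e : f.natDegree = g.natDegree := natDegree_eq_of_degree_eq h
        have h1 : f.natDegree ≠ 0 := by
          intro h0
          apply hf1
          rw [degree_eq_natDegree hf, h0]
          rfl
        have h2 : g.natDegree ≠ 0 := e ▸ h1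
        exact ⟨h1, h2, (leDeg_iff h1 h2).2 e.le, (leDeg_iff h2 h1).2 e.ge⟩

end Polys

/-- **Equal degree is definable in `K[t]`.** There is one formula with two free variables in the
language of rings, without parameters, which for every algebraically closed field `K` of
characteristic zero defines the relation `deg f = deg g` in the ring `K[t]` (with
`deg 0 = ⊥`).  In particular this relation is definable, without parameters, in `ℂ[t]`. -/
theorem result :
    (∃ φ : Language.ring.Formula (Fin 2), ∀ (K : Type) [Field K] [IsAlgClosed K] [CharZero K],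
      ∀ f g : K[X], letI := compatibleRingOfRing K[X];
        (φ.Realize ![f, g] ↔ f.degree = g.degree)) ∧
    (letI := compatibleRingOfRing ℂ[X];
      Set.Definable₂ (∅ : Set ℂ[X]) Language.ring {p : ℂ[X] × ℂ[X] | p.1.degree = p.2.degree}) := by
  obtain ⟨φ, hφ⟩ := dEqDeg.{0} (α := Fin 2) 0 1
  have key : ∀ (K : Type) [Field K] [IsAlgClosed K] [CharZero K],
      ∀ v : Fin 2 → K[X], letI := compatibleRingOfRing K[X];
        (φ.Realize v ↔ (v 0).degree = (v 1).degree) := by
    intro K _ _ _ v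
    let _ := compatibleRingOfRing K[X]
    change φ.Realize v ↔ _
    rw [hφ K[X] v]
    exact eqDeg_iff (v 0) (v 1)
  constructor
  · refine ⟨φ, fun K _ _ _ f g => ?_⟩
    have := key K ![f, g]
    simpa using this
  · let _ := compatibleRingOfRing ℂ[X]
    change Set.Definable _ _ _
    rw [Set.empty_definable_iff]
    refine ⟨φ, ?_⟩
    ext v
    exact (key ℂ v).symm

end Pool.Agent.Results.MP_d395f7_lc.EqualDegreeDefinable
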